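import Mathlib

namespace Pool.Agent.Lib.MP_f09365_an.Ash

/-- Chains mod two on lists of points. -/
abbrev Ch (X : Type*) := List X →₀ ZMod 2

variable {X : Type*}

noncomputable def sg (l : List X) : Ch X := Finsupp.single l 1

noncomputable def lin (F : List X → Ch X) : Ch X →ₗ[ZMod 2] Ch X :=
  Finsupp.linearCombination (ZMod 2) F

@[simp] lemma lin_sg (F : List X → Ch X) (l : List X) : lin F (sg l) = F l := by
  simp [lin, sg]

lemma add_self (c : Ch X) : c + c = 0 := by
  ext l
  simp [CharTwo.add_self_eq_zero]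

lemma ch_ext {F G : Ch X →ₗ[ZMod 2] Ch X} (h : ∀ l, F (sg l) = G (sg l)) (c : Ch X) :
    F c = G c := by
  have : F = G := by
    ext1 l
    ext1
    exact h l
  rw [this]

noncomputable def cons (x : X) : Ch X →ₗ[ZMod 2] Ch X := lin fun l => sg (x :: l)

noncomputable def mp (u : X → X) : Ch X →ₗ[ZMod 2] Ch X := lin fun l => sg (l.map u)

@[simp] lemma cons_sg (x : X) (l : List X) : cons x (sg l) = sg (x :: l) := lin_sg _ _

@[simp] lemma mp_sg (u : X → X) (l : List X) : mp u (sg l) = sg (l.map u) := lin_sg _ _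

lemma mp_cons (u : X → X) (x : X) (c : Ch X) : mp u (cons x c) = cons (u x) (mp u c) :=
  ch_ext (F := mp u ∘ₗ cons x) (G := cons (u x) ∘ₗ mp u) (fun l => by simp) c

lemma mp_mp (u v : X → X) (c : Ch X) : mp u (mp v c) = mp (u ∘ v) c :=
  ch_ext (F := mp u ∘ₗ mp v) (fun l => by simp) c

lemma mp_id (c : Ch X) : mp id c = c :=
  ch_ext (G := LinearMap.id) (fun l => by simp) c

noncomputable def bdL : List X → Ch X
  | [] => 0
  | x :: l => sg l + cons x (bdL l)

noncomputable def bd : Ch X →ₗ[ZMod 2] Ch X := lin bdL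

@[simp] lemma bd_nil : bd (sg ([] : List X)) = 0 := lin_sg _ _

lemma bd_cons (x : X) (c : Ch X) : bd (cons x c) = c + cons x (bd c) :=
  ch_ext (F := bd ∘ₗ cons x) (G := LinearMap.id + cons x ∘ₗ bd) (fun l => by simp [bd, bdL]) c

lemma bd_mp (u : X → X) (c : Ch X) : bd (mp u c) = mp u (bd c) := by
  refine ch_ext (F := bd ∘ₗ mp u) (G := mp u ∘ₗ bd) (fun l => ?_) c
  simp only [LinearMap.comp_apply]
  induction l with
  | nil => simp
  | cons x l ih => rw [← cons_sg, mp_cons, bd_cons, bd_cons, ih, map_add, mp_cons]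

noncomputable def prL (u v : X → X) : List X → Ch X
  | [] => 0
  | x :: l => sg (u x :: v x :: l.map v) + cons (u x) (prL u v l)

/-- The prism operator of two maps. -/
noncomputable def pr (u v : X → X) : Ch X →ₗ[ZMod 2] Ch X := lin (prL u v)

@[simp] lemma pr_nil (u v : X → X) : pr u v (sg []) = 0 := lin_sg _ _

lemma pr_cons (u v : X → X) (x : X) (c : Ch X) :
    pr u v (cons x c) = cons (u x) (cons (v x) (mp v c)) + cons (u x) (pr u v c) :=
  ch_ext (F := pr u v ∘ₗ cons x) (G := cons (u x) ∘ₗ cons (v x) ∘ₗ mp v + cons (u x) ∘ₗ pr u v)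
    (fun l => by simp [pr, prL]) c

lemma bd_pr (u v : X → X) (c : Ch X) : bd (pr u v c) = pr u v (bd c) + mp u c + mp v c := by
  refine ch_ext (F := bd ∘ₗ pr u v) (G := pr u v ∘ₗ bd + mp u + mp v) (fun l => ?_) c
  simp only [LinearMap.comp_apply, LinearMap.add_apply]
  induction l with
  | nil => simp [add_self]
  | cons x l ih =>
    rw [← cons_sg, pr_cons, bd_cons, map_add, map_add, bd_cons, bd_cons, bd_cons, ih, pr_cons,
      mp_cons, mp_cons, bd_mp]
    simp only [map_add]
    linear_combination (norm := abel1) add_self (cons (u x) (mp v (sg l)))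

lemma pr_mp {u v g : X → X} (hu : ∀ x, u (g x) = g (u x)) (hv : ∀ x, v (g x) = g (v x))
    (c : Ch X) : pr u v (mp g c) = mp g (pr u v c) := by
  refine ch_ext (F := pr u v ∘ₗ mp g) (G := mp g ∘ₗ pr u v) (fun l => ?_) c
  simp only [LinearMap.comp_apply]
  induction l with
  | nil => simp
  | cons x l ih =>
    have : v ∘ g = g ∘ v := funext hv
    rw [← cons_sg, mp_cons, pr_cons, pr_cons, ih, map_add, mp_cons, mp_cons, mp_cons, mp_mp,
      mp_mp, hu, hv, this]

/-- Chains of lists with entries in a given set. -/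
noncomputable def On (A : Set X) : Submodule (ZMod 2) (Ch X) :=
  Submodule.span (ZMod 2) (sg '' {l | ∀ x ∈ l, x ∈ A})

/-- Chains of lists with entries in some set of a given family. -/
noncomputable def Sp (p : Set X → Prop) : Submodule (ZMod 2) (Ch X) :=
  Submodule.span (ZMod 2) (sg '' {l | ∃ A, p A ∧ ∀ x ∈ l, x ∈ A})

lemma sg_mem {A : Set X} {l : List X} (h : ∀ x ∈ l, x ∈ A) : sg l ∈ On A :=
  Submodule.subset_span ⟨l, h, rfl⟩

lemma on_le {p : Set X → Prop} {A : Set X} (h : p A) : On A ≤ Sp p :=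
  Submodule.span_mono (Set.image_mono fun _ hl => ⟨A, h, hl⟩)

lemma on_mono {A B : Set X} (h : A ⊆ B) : On A ≤ On B :=
  Submodule.span_mono (Set.image_mono fun l (hl : ∀ x ∈ l, x ∈ A) x hx => h (hl x hx))

lemma cons_mem {A : Set X} {x : X} (hx : x ∈ A) {c : Ch X} (hc : c ∈ On A) :
    cons x c ∈ On A := by
  have : On A ≤ (On A).comap (cons x) := Submodule.span_le.2 (by
    rintro _ ⟨l, hl, rfl⟩
    simp only [SetLike.mem_coe, Submodule.mem_comap, cons_sg]
    exact sg_mem (by simpa using ⟨hx, hl⟩))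
  exact this hc

lemma map_sp {p q : Set X → Prop} (F : Ch X →ₗ[ZMod 2] Ch X)
    (h : ∀ A, p A → ∃ B, q B ∧ ∀ l, (∀ x ∈ l, x ∈ A) → F (sg l) ∈ On B) {c : Ch X}
    (hc : c ∈ Sp p) : F c ∈ Sp q := by
  have : Sp p ≤ (Sp q).comap F := Submodule.span_le.2 (by
    rintro _ ⟨l, ⟨A, hA, hl⟩, rfl⟩
    obtain ⟨B, hB, hF⟩ := h A hA
    exact on_le hB (hF l hl))
  exact this hc

lemma sp_mono {p q : Set X → Prop} (h : ∀ A, p A → q A) : Sp p ≤ Sp q :=
  Submodule.span_mono (Set.image_mono fun _ ⟨A, hA, hl⟩ => ⟨A, h A hA, hl⟩)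

lemma sp_ext {p : Set X → Prop} {F G : Ch X →ₗ[ZMod 2] Ch X}
    (h : ∀ A, p A → ∀ l, (∀ x ∈ l, x ∈ A) → F (sg l) = G (sg l)) {c : Ch X} (hc : c ∈ Sp p) :
    F c = G c :=
  LinearMap.eqOn_span (by rintro _ ⟨l, ⟨A, hA, hl⟩, rfl⟩; exact h A hA l hl) hc

lemma mp_mem (u : X → X) {A : Set X} (l : List X) (hl : ∀ x ∈ l, x ∈ A) :
    mp u (sg l) ∈ On (u '' A) := by
  rw [mp_sg]
  refine sg_mem fun y hy => ?_
  obtain ⟨x, hx, rfl⟩ := List.mem_map.1 hy
  exact ⟨x, hl x hx, rfl⟩

lemma pr_mem (u v : X → X) {A : Set X} (l : List X) (hl : ∀ x ∈ l, x ∈ A) :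
    pr u v (sg l) ∈ On (u '' A ∪ v '' A) := by
  induction l with
  | nil => simp
  | cons x l ih =>
    have hx : x ∈ A := hl x (by simp)
    have hl' : ∀ y ∈ l, y ∈ A := fun y hy => hl y (by simp [hy])
    rw [← cons_sg, pr_cons]
    have h1 : u x ∈ u '' A ∪ v '' A := Or.inl ⟨x, hx, rfl⟩
    have h2 : v x ∈ u '' A ∪ v '' A := Or.inr ⟨x, hx, rfl⟩
    refine add_mem (cons_mem h1 (cons_mem h2 ?_)) (cons_mem h1 (ih hl'))
    exact on_mono Set.subset_union_right (mp_mem v l hl')

/-- A family of chains with the equivariant boundary relation. -/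
structure Fam {K : Type*} [Fintype K] [DecidableEq K] (g : K → X → X) (p : Set X → Prop)
    (D : K → ℤ) (a : (K → ℤ) → ZMod 2) (e : (K → ℤ) → Ch X) : Prop where
  mem : ∀ m, e m ∈ Sp p
  rel : ∀ m, m ≤ D → bd (e m) =
    ∑ k, (e (m - Pi.single k 1) + mp (g k) (e (m - Pi.single k 1))) + a m • sg []

/-- Raising the dimension of one factor. -/
lemma Fam.step {K : Type*} [Fintype K] [DecidableEq K] {g : K → X → X} {p q : Set X → Prop}
    {D : K → ℤ} {a : (K → ℤ) → ZMod 2} {e : (K → ℤ) → Ch X} (h : Fam g p D a e) (k : K)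
    (hinv : ∀ x, g k (g k x) = x) (hcomm : ∀ l x, g k (g l x) = g l (g k x))
    (ha : ∀ m, D k < m k → a m = 0)
    (M : ℕ) (H : ℕ → X → X) (h0 : H 0 = id) (hM : ∀ x, H M (g k x) = H M x)
    (hH : ∀ t l x, l ≠ k → H t (g l x) = g l (H t x))
    (hpq : ∀ A, p A → q A) (hg : ∀ A, p A → p (g k '' A))
    (hs : ∀ t < M, ∀ A, p A → q (H t '' A ∪ H (t + 1) '' A)) :
    ∃ e', Fam g q (D + Pi.single k 1) a e' := by
  classical
  let Q : Ch X →ₗ[ZMod 2] Ch X := ∑ t ∈ Finset.range M, pr (H t) (H (t + 1))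
  have hQ : ∀ c, bd (Q c) = Q (bd c) + c + mp (H M) c := by
    intro c
    have : ∀ n, bd ((∑ t ∈ Finset.range n, pr (H t) (H (t + 1))) c) =
        (∑ t ∈ Finset.range n, pr (H t) (H (t + 1))) (bd c) + c + mp (H n) c := by
      intro n
      induction n with
      | zero => simp [h0, mp_id, add_self]
      | succ n ih =>
        simp only [Finset.sum_range_succ, LinearMap.add_apply, map_add, ih, bd_pr]
        linear_combination (norm := abel1) add_self (mp (H n) c)
    exact this M
  have hQg : ∀ l, l ≠ k → ∀ c, Q (mp (g l) c) = mp (g l) (Q c) := by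
    intro l hl c
    simp only [Q, LinearMap.sum_apply, map_sum]
    exact Finset.sum_congr rfl fun t _ =>
      pr_mp (fun x => hH t l x hl) (fun x => hH (t + 1) l x hl) c
  have hQm : ∀ c ∈ Sp p, Q c ∈ Sp q := by
    intro c hc
    simp only [Q, LinearMap.sum_apply]
    exact Submodule.sum_mem _ fun t ht => map_sp _
      (fun A hA => ⟨_, hs t (Finset.mem_range.1 ht) A hA, pr_mem _ _⟩) hc
  have hgm : ∀ c ∈ Sp p, mp (g k) c ∈ Sp p := fun c hc =>
    map_sp _ (fun A hA => ⟨_, hg A hA, mp_mem _⟩) hc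
  refine ⟨fun m => if m k ≤ D k then e m else
    Q (e (m - Pi.single k 1) + mp (g k) (e (m - Pi.single k 1))), fun m => ?_, fun m hm => ?_⟩
  · split_ifs
    · exact sp_mono hpq (h.mem m)
    · exact hQm _ (add_mem (h.mem _) (hgm _ (h.mem _)))
  · have hsub : ∀ l, (m - Pi.single l 1 : K → ℤ) k ≤ m k := by
      intro l
      by_cases hl : k = l <;> simp [hl]
    by_cases hk : m k ≤ D k
    · have hD : m ≤ D := by
        intro l
        by_cases hl : l = k
        · rw [hl]; exact hk
        · simpa [hl] using hm l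
      rw [if_pos hk, h.rel m hD]
      congr 1
      exact Finset.sum_congr rfl fun l _ => by rw [if_pos ((hsub l).trans hk)]
    · have hk1 : m k = D k + 1 := by
        have := hm k
        simp at this
        omega
      have hD : m - Pi.single k 1 ≤ D := by
        intro l
        by_cases hl : l = k
        · simp [hl, hk1]
        · simpa [hl] using hm l
      have hq : mp (H M) (mp (g k) (e (m - Pi.single k 1))) = mp (H M) (e (m - Pi.single k 1)) := by
        rw [mp_mp]
        congr 2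
        exact funext hM
      rw [if_neg hk, hQ, ha m (by omega), zero_smul, add_zero, map_add (mp (H M)), hq, add_self,
        add_zero, map_add bd, bd_mp, h.rel _ hD, ← Finset.add_sum_erase _ _ (Finset.mem_univ k),
        ← Finset.add_sum_erase Finset.univ _ (Finset.mem_univ k),
        if_pos (by simp [hk1])]
      have h1 : ∀ c : Ch X, mp (g k) (mp (g k) c) = c := fun c => by
        rw [mp_mp, show g k ∘ g k = id from funext hinv, mp_id]
      have h2 : ∑ l ∈ Finset.univ.erase k,
          ((if (m - Pi.single l 1 : K → ℤ) k ≤ D k then e (m - Pi.single l 1) else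
            Q (e (m - Pi.single l 1 - Pi.single k 1) +
              mp (g k) (e (m - Pi.single l 1 - Pi.single k 1)))) +
          mp (g l) (if (m - Pi.single l 1 : K → ℤ) k ≤ D k then e (m - Pi.single l 1) else
            Q (e (m - Pi.single l 1 - Pi.single k 1) +
              mp (g k) (e (m - Pi.single l 1 - Pi.single k 1))))) =
          Q (∑ l ∈ Finset.univ.erase k, (e (m - Pi.single k 1 - Pi.single l 1) +
            mp (g l) (e (m - Pi.single k 1 - Pi.single l 1)))) +
          Q (mp (g k) (∑ l ∈ Finset.univ.erase k, (e (m - Pi.single k 1 - Pi.single l 1) +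
            mp (g l) (e (m - Pi.single k 1 - Pi.single l 1))))) := by
        simp only [map_sum, ← Finset.sum_add_distrib]
        refine Finset.sum_congr rfl fun l hl => ?_
        have hl' : l ≠ k := (Finset.mem_erase.1 hl).1
        rw [if_neg (by simp [hl'.symm, hk1]), sub_right_comm m, ← hQg l hl']
        simp only [map_add, mp_mp]
        rw [show g l ∘ g k = g k ∘ g l from funext fun x => (hcomm l x).symm]
        abel
      rw [h2]
      simp only [map_add, map_smul, mp_sg, List.map_nil, h1]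
      linear_combination (norm := abel1)
        add_self (Q (e (m - Pi.single k 1 - Pi.single k 1))) +
        add_self (Q (mp (g k) (e (m - Pi.single k 1 - Pi.single k 1)))) +
        add_self (a (m - Pi.single k 1) • Q (sg []))

end Pool.Agent.Lib.MP_f09365_an.Ash
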