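import Pool.Agent.Lib.MP_f09365_an.Ash.PBU

namespace Pool.Agent.Lib.MP_f09365_an.Ash

open Finset

variable {ι B : Type*} [Fintype ι]

/-- Product Borsuk-Ulam theorem, cube form, finitely many blocks. -/
theorem pbu_cube_fin [Fintype B] [DecidableEq B] (blk : ι → B) (F : (ι → ℝ) → ι → ℝ)
    (hF : ContinuousOn F {q | ∀ i, |q i| ≤ 1})
    (hodd : ∀ q c, (∀ i, |q i| ≤ 1) → |q c| = 1 → F (flp blk (blk c) q) = flp blk (blk c) (F q)) :
    ∃ q, (∀ i, |q i| ≤ 1) ∧ F q = 0 := by
  classical
  let fl : Finset B → (ι → ℝ) → ι → ℝ := fun T q i => if blk i ∈ T then -q i else q i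
  have habs : ∀ T q i, |fl T q i| = |q i| := by
    intro T q i
    simp only [fl]
    split_ifs <;> simp
  have hfl : ∀ T q, (∀ i, |q i| ≤ 1) → (∀ b ∈ T, ∃ c, blk c = b ∧ |q c| = 1) →
      F (fl T q) = fl T (F q) := by
    intro T q hq
    induction T using Finset.induction_on with
    | empty => intro _; simp [fl]
    | insert b T hb ih =>
      intro h
      obtain ⟨c, rfl, hc⟩ := h b (by simp)
      have e : ∀ q, fl (insert (blk c) T) q = flp blk (blk c) (fl T q) := by
        intro q
        ext i
        by_cases hi : blk i = blk c <;> simp [fl, flp, hi, hb]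
      rw [e, e, hodd _ c (fun i => by rw [habs]; exact hq i) (by rw [habs]; exact hc),
        ih fun b hb => h b (by simp [hb])]
  let n : ℝ := Fintype.card ι
  let τ : ι ⊕ B → B := Sum.elim blk id
  let Q : (ι ⊕ B → ℝ) → ι → ℝ := fun x i => max (-1) (min 1 (n * x (Sum.inl i)))
  have hQ : ∀ x i, |Q x i| ≤ 1 := fun x i =>
    abs_le.2 ⟨le_max_left _ _, max_le (by norm_num) (min_le_left _ _)⟩
  have hQ1 : ∀ x ∈ Sph1 τ univ, ∀ b, x (Sum.inr b) = 0 → ∃ c, blk c = b ∧ |Q x c| = 1 := by
    intro x hx b hb
    have h1 := hx.2 b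
    rw [sum_filter, Fintype.sum_sum_type] at h1
    have h2 : ∑ i, (if blk i = b then |x (Sum.inl i)| else 0) = 1 := by
      have h0 : ∑ a : B, (if τ (Sum.inr a) = b then |x (Sum.inr a)| else 0) = 0 :=
        sum_eq_zero fun a _ => by
          split_ifs with h
          · rw [show a = b from h, hb, abs_zero]
          · rfl
      rw [h0, add_zero] at h1
      exact h1
    have : ∃ c, blk c = b ∧ 1 ≤ n * |x (Sum.inl c)| := by
      by_contra h
      push Not at h
      have hne : Nonempty ι := by
        by_contra h'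
        rw [not_nonempty_iff] at h'
        simp at h2
      have h3 : ∑ i, n * (if blk i = b then |x (Sum.inl i)| else 0) < ∑ _i : ι, (1 : ℝ) :=
        sum_lt_sum_of_nonempty univ_nonempty fun i _ => by
          split_ifs with hi
          · exact h i hi
          · simp
      rw [← mul_sum, h2] at h3
      simp [n] at h3
    obtain ⟨c, hc, h⟩ := this
    refine ⟨c, hc, ?_⟩
    rw [← abs_of_nonneg (show 0 ≤ n by positivity), ← abs_mul, le_abs] at h
    rcases h with h | h
    · simp [Q, min_eq_left h]
    · rw [show Q x c = -1 from max_eq_left ((min_le_right _ _).trans (by linarith))]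
      simp
  let T : (ι ⊕ B → ℝ) → Finset B := fun x => {b | x (Sum.inr b) < 0}
  let f : (ι ⊕ B → ℝ) → ι → ℝ := fun x => fl (T x) (F (fl (T x) (Q x)))
  have hf : ∀ x ∈ Sph1 τ univ, ∀ U : Finset B,
      (∀ b, if b ∈ U then x (Sum.inr b) ≤ 0 else 0 ≤ x (Sum.inr b)) →
      f x = fl U (F (fl U (Q x))) := by
    intro x hx U hU
    have hTU : ∀ b, b ∈ T x → b ∈ U := by
      intro b hb
      by_contra h
      have := hU b
      rw [if_neg h] at this
      exact absurd (by simpa [T] using hb) (not_lt.2 this)
    have e : ∀ q, fl U q = fl (U \ T x) (fl (T x) q) := by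
      intro q
      ext i
      by_cases h : blk i ∈ T x
      · simp [fl, h, hTU _ h]
      · simp [fl, h]
    rw [e (Q x), hfl _ _ (fun i => by rw [habs]; exact hQ x i) fun b hb => ?_]
    · ext i
      by_cases h : blk i ∈ T x
      · simp [f, fl, h, hTU _ h]
      · by_cases h' : blk i ∈ U <;> simp [f, fl, h, h']
    · rw [mem_sdiff] at hb
      have h1 := hU b
      rw [if_pos hb.1] at h1
      simpa only [habs] using hQ1 x hx b (le_antisymm h1 (by simpa [T] using hb.2))
  have hcf : ∀ U, Continuous (fl U) := fun U => continuous_pi fun i => by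
    simp only [fl]
    split_ifs <;> fun_prop
  have hcQ : Continuous Q := by fun_prop
  suffices h : ∃ x ∈ Sph1 τ univ, f x = 0 by
    obtain ⟨x, -, hx⟩ := h
    refine ⟨fl (T x) (Q x), fun i => by rw [habs]; exact hQ x i, ?_⟩
    ext i
    rw [Pi.zero_apply, ← abs_eq_zero, ← habs (T x), abs_eq_zero]
    exact congrFun hx i
  refine pbu_one τ blk (fun k => ?_) f ?_ fun k x hx => ?_
  · rw [card_filter, card_filter, Fintype.sum_sum_type]
    refine Nat.lt_add_of_pos_right ?_
    exact sum_pos' (fun _ _ => Nat.zero_le _) ⟨k, mem_univ k, by simp [τ]⟩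
  · have : Sph1 τ univ = ⋃ U : Finset B, Sph1 τ univ ∩
        {x | ∀ b, if b ∈ U then x (Sum.inr b) ≤ 0 else 0 ≤ x (Sum.inr b)} := by
      refine Set.Subset.antisymm (fun x hx => Set.mem_iUnion.2 ⟨T x, hx, fun b => ?_⟩)
        (Set.iUnion_subset fun _ => Set.inter_subset_left)
      split_ifs with h
      · exact le_of_lt (by simpa [T] using h)
      · simpa [T] using h
    rw [this]
    refine (locallyFinite_of_finite _).continuousOn_iUnion (fun U => IsClosed.inter ?_ ?_)
      fun U => ?_
    · have : Sph1 τ univ = ⋂ k, {x | ∑ i with τ i = k, |x i| = 1} := by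
        ext x
        simp [Sph1]
      rw [this]
      exact isClosed_iInter fun k => isClosed_eq (by fun_prop) continuous_const
    · rw [Set.ofPred_forall]
      refine isClosed_iInter fun b => ?_
      split_ifs
      · exact isClosed_le (by fun_prop) continuous_const
      · exact isClosed_le continuous_const (by fun_prop)
    · refine ContinuousOn.congr (f := fun x => fl U (F (fl U (Q x)))) ?_
        fun x hx => hf x hx.1 U hx.2
      exact (hcf U).comp_continuousOn (hF.comp ((hcf U).comp hcQ).continuousOn
        fun x _ i => by simpa only [Function.comp, habs] using hQ x i)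
  · have hmem : ∀ b, b ∈ symmDiff (T x) {k} ↔ if b = k then b ∉ T x else b ∈ T x := by
      intro b
      by_cases h : b = k <;> simp [mem_symmDiff, h]
    rw [hf _ (flp_mem k hx) (symmDiff (T x) {k}) fun b => ?_]
    · have e : fl (symmDiff (T x) {k}) (Q (flp τ k x)) = fl (T x) (Q x) := by
        ext i
        have e' : max (-1) (min 1 (-(n * x (Sum.inl i)))) =
            -max (-1) (min 1 (n * x (Sum.inl i))) := by
          simp only [max_def, min_def]
          split_ifs <;> linarith
        have e2 : Q (flp τ k x) i = if blk i = k then -Q x i else Q x i := by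
          simp only [Q, flp, τ, Sum.elim_inl]
          split_ifs
          · rw [mul_neg, e']
          · rfl
        simp only [fl, hmem, e2]
        split_ifs <;> simp only [neg_neg]
      rw [e]
      ext i
      simp only [fl, f, flp, hmem]
      split_ifs <;> simp only [neg_neg]
    · have e3 : b ∈ T x ↔ x (Sum.inr b) < 0 := by simp [T]
      simp only [hmem, flp, τ, Sum.elim_inr, id, e3]
      split_ifs <;> linarith

/-- Product Borsuk-Ulam theorem, cube form. -/
theorem pbu_cube [DecidableEq B] (blk : ι → B) (F : (ι → ℝ) → ι → ℝ)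
    (hF : ContinuousOn F {q | ∀ i, |q i| ≤ 1})
    (hodd : ∀ q c, (∀ i, |q i| ≤ 1) → |q c| = 1 → F (flp blk (blk c) q) = flp blk (blk c) (F q)) :
    ∃ q, (∀ i, |q i| ≤ 1) ∧ F q = 0 := by
  let blk' : ι → univ.image blk := fun i => ⟨blk i, mem_image_of_mem _ (mem_univ i)⟩
  have e : ∀ c, flp blk' (blk' c) = flp blk (blk c) := by
    intro c
    ext q i
    simp [flp, blk']
  exact pbu_cube_fin blk' F hF (by simpa only [e] using hodd)

end Pool.Agent.Lib.MP_f09365_an.Ash
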