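import Pool.Agent.Lib.MP_f09365_an.Ash.Chain

namespace Pool.Agent.Lib.MP_f09365_an.Ash

variable {X S : Type*} [DecidableEq S] (lab : X → S × Bool) (s : S)

noncomputable def klL : List X → Ch X
  | [] => sg []
  | x :: l => if (lab x).1 = s then 0 else cons x (klL l)

/-- Kills the lists that meet the label. -/
noncomputable def kl : Ch X →ₗ[ZMod 2] Ch X := lin (klL lab s)

@[simp] lemma kl_nil : kl lab s (sg []) = sg [] := lin_sg _ _

lemma kl_cons (x : X) (c : Ch X) :
    kl lab s (cons x c) = if (lab x).1 = s then 0 else cons x (kl lab s c) := by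
  split_ifs with h
  · exact ch_ext (F := kl lab s ∘ₗ cons x) (G := 0) (fun l => by simp [kl, klL, h]) c
  · exact ch_ext (F := kl lab s ∘ₗ cons x) (G := cons x ∘ₗ kl lab s)
      (fun l => by simp [kl, klL, h]) c

noncomputable def tkL (b : Bool) : List X → Ch X
  | [] => 0
  | x :: l => if (lab x).1 = s then (if (lab x).2 = b then kl lab s (sg l) else 0)
      else cons x (tkL b l)

/-- Deletes the point with the given signed label. -/
noncomputable def tk (b : Bool) : Ch X →ₗ[ZMod 2] Ch X := lin (tkL lab s b)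

@[simp] lemma tk_nil (b : Bool) : tk lab s b (sg []) = 0 := lin_sg _ _

lemma tk_cons (b : Bool) (x : X) (c : Ch X) :
    tk lab s b (cons x c) = if (lab x).1 = s then (if (lab x).2 = b then kl lab s c else 0)
      else cons x (tk lab s b c) := by
  split_ifs with h h'
  · exact ch_ext (F := tk lab s b ∘ₗ cons x) (fun l => by simp [tk, tkL, h, h']) c
  · exact ch_ext (F := tk lab s b ∘ₗ cons x) (G := 0) (fun l => by simp [tk, tkL, h, h']) c
  · exact ch_ext (F := tk lab s b ∘ₗ cons x) (G := cons x ∘ₗ tk lab s b)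
      (fun l => by simp [tk, tkL, h]) c

lemma bd_kl (b : Bool) (c : Ch X) :
    bd (kl lab s c) = kl lab s (bd c) + tk lab s b c + tk lab s (!b) c := by
  refine ch_ext (F := bd ∘ₗ kl lab s) (G := kl lab s ∘ₗ bd + tk lab s b + tk lab s (!b))
    (fun l => ?_) c
  simp only [LinearMap.comp_apply, LinearMap.add_apply]
  induction l with
  | nil => simp
  | cons x l ih =>
    rw [← cons_sg, bd_cons, map_add, kl_cons, kl_cons, tk_cons, tk_cons]
    by_cases h : (lab x).1 = s
    · by_cases h' : (lab x).2 = b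
      · simp [h, h', add_self]
      · have : (lab x).2 = !b := Bool.eq_not.2 h'
        simp [h, this, add_self]
    · simp only [h, if_false, bd_cons, ih, map_add]
      abel

lemma tk_zero (b : Bool) (l : List X) (h : ∀ x ∈ l, (lab x).1 = s → (lab x).2 ≠ b) :
    tk lab s b (sg l) = 0 := by
  induction l with
  | nil => simp
  | cons x l ih =>
    rw [← cons_sg, tk_cons, ih fun y hy => h y (by simp [hy])]
    split_ifs with h1 h2
    · exact absurd h2 (h x (by simp) h1)
    · rfl
    · simp

lemma bd_tk (b : Bool) (l : List X)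
    (h : ∀ x ∈ l, ∀ y ∈ l, (lab x).1 = (lab y).1 → (lab x).2 = (lab y).2) :
    bd (tk lab s b (sg l)) = tk lab s b (bd (sg l)) := by
  induction l with
  | nil => simp
  | cons x l ih =>
    have ih' := ih fun y hy z hz => h y (by simp [hy]) z (by simp [hz])
    have hx : ∀ y ∈ l, (lab x).1 = (lab y).1 → (lab x).2 = (lab y).2 :=
      fun y hy => h x (by simp) y (by simp [hy])
    rw [← cons_sg, bd_cons, map_add, tk_cons, tk_cons]
    split_ifs with h1 h2
    · rw [bd_kl lab s b, tk_zero lab s (!b) l fun y hy hs => by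
        rw [← hx y hy (h1.trans hs.symm), h2]; simp]
      abel
    · rw [tk_zero lab s b l fun y hy hs => by rw [← hx y hy (h1.trans hs.symm)]; exact h2]
      simp
    · rw [bd_cons, ih']

lemma kl_mp (g : X → X) (l : List X) (h : ∀ x ∈ l, (lab (g x)).1 = (lab x).1) :
    kl lab s (mp g (sg l)) = mp g (kl lab s (sg l)) := by
  induction l with
  | nil => simp
  | cons x l ih =>
    rw [← cons_sg, mp_cons, kl_cons, kl_cons, h x (by simp), ih fun y hy => h y (by simp [hy])]
    split_ifs
    · simp
    · rw [mp_cons]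

lemma tk_mp (g : X → X) (b b' : Bool) (l : List X) (h : ∀ x ∈ l, (lab (g x)).1 = (lab x).1)
    (h' : ∀ x ∈ l, (lab x).1 = s → ((lab (g x)).2 = b ↔ (lab x).2 = b')) :
    tk lab s b (mp g (sg l)) = mp g (tk lab s b' (sg l)) := by
  induction l with
  | nil => simp
  | cons x l ih =>
    rw [← cons_sg, mp_cons, tk_cons, tk_cons, h x (by simp),
      ih (fun y hy => h y (by simp [hy])) (fun y hy => h' y (by simp [hy])),
      kl_mp lab s g l fun y hy => h y (by simp [hy])]
    by_cases h1 : (lab x).1 = s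
    · simp only [h1, if_true, h' x (by simp) h1]
      split_ifs <;> simp
    · simp only [h1, if_false, mp_cons]

lemma kl_mem {A : Set X} (l : List X) (hl : ∀ x ∈ l, x ∈ A) :
    kl lab s (sg l) ∈ On (A ∩ {x | (lab x).1 ≠ s}) := by
  induction l with
  | nil => simpa using sg_mem (by simp)
  | cons x l ih =>
    rw [← cons_sg, kl_cons]
    split_ifs with h
    · simp
    · exact cons_mem (Set.mem_inter (hl x (by simp)) h) (ih fun y hy => hl y (by simp [hy]))

lemma tk_mem (b : Bool) {A : Set X} (l : List X) (hl : ∀ x ∈ l, x ∈ A) :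
    tk lab s b (sg l) ∈ On (A ∩ {x | (lab x).1 ≠ s}) := by
  induction l with
  | nil => simp
  | cons x l ih =>
    rw [← cons_sg, tk_cons]
    split_ifs with h h'
    · exact kl_mem lab s l fun y hy => hl y (by simp [hy])
    · simp
    · exact cons_mem (Set.mem_inter (hl x (by simp)) h) (ih fun y hy => hl y (by simp [hy]))

/-- Sets inside the domain with labels in a given set and without complementary pair. -/
def Good (O : Set X) (R : Finset S) (A : Set X) : Prop :=
  A ⊆ O ∧ (∀ x ∈ A, (lab x).1 ∈ R) ∧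
    ∀ x ∈ A, ∀ y ∈ A, (lab x).1 = (lab y).1 → (lab x).2 = (lab y).2

variable {K : Type*} [Fintype K] [DecidableEq K]

/-- Removing one label. -/
lemma Fam.reduce {g : K → X → X} {O : Set X} (sig : S → K) (hO : ∀ k, ∀ x ∈ O, g k x ∈ O)
    (hcomm : ∀ k l x, g k (g l x) = g l (g k x))
    (h1 : ∀ k, ∀ x ∈ O, (lab (g k x)).1 = (lab x).1)
    (h2 : ∀ k, ∀ x ∈ O,
      (lab (g k x)).2 = if sig (lab x).1 = k then !(lab x).2 else (lab x).2)
    {R : Finset S} {D : K → ℤ} {a : (K → ℤ) → ZMod 2} {e : (K → ℤ) → Ch X}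
    (h : Fam g (Good lab O (insert s R)) D a e) :
    ∃ e', Fam g (Good lab O R) D (fun m => a (m - Pi.single (sig s) 1)) e' := by
  obtain ⟨k, hk⟩ : ∃ k, k = sig s := ⟨_, rfl⟩
  rw [← hk]
  have hres : ∀ A, Good lab O (insert s R) A → Good lab O R (A ∩ {x | (lab x).1 ≠ s}) :=
    fun A hA => ⟨fun x hx => hA.1 hx.1,
      fun x hx => (Finset.mem_insert.1 (hA.2.1 x hx.1)).resolve_left hx.2,
      fun x hx y hy => hA.2.2 x hx.1 y hy.1⟩
  have hg : ∀ l A, Good lab O R A → Good lab O R (g l '' A) := by
    intro l A hA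
    refine ⟨?_, ?_, ?_⟩
    · rintro _ ⟨x, hx, rfl⟩
      exact hO l x (hA.1 hx)
    · rintro _ ⟨x, hx, rfl⟩
      rw [h1 l x (hA.1 hx)]
      exact hA.2.1 x hx
    · rintro _ ⟨x, hx, rfl⟩ _ ⟨y, hy, rfl⟩ hxy
      rw [h1 l x (hA.1 hx), h1 l y (hA.1 hy)] at hxy
      rw [h2 l x (hA.1 hx), h2 l y (hA.1 hy), hA.2.2 x hx y hy hxy, hxy]
  have hT : ∀ m, bd (tk lab s true (e m)) = tk lab s true (bd (e m)) := fun m =>
    sp_ext (F := bd ∘ₗ tk lab s true) (G := tk lab s true ∘ₗ bd)
      (fun A hA l hl => bd_tk lab s true l fun x hx y hy => hA.2.2 x (hl x hx) y (hl y hy))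
      (h.mem m)
  have hP : ∀ l m, kl lab s (mp (g l) (e m)) = mp (g l) (kl lab s (e m)) := fun l m =>
    sp_ext (F := kl lab s ∘ₗ mp (g l)) (G := mp (g l) ∘ₗ kl lab s)
      (fun A hA L hL => kl_mp lab s _ L fun x hx => h1 l x (hA.1 (hL x hx))) (h.mem m)
  have hTg : ∀ l m, tk lab s true (mp (g l) (e m)) =
      mp (g l) (tk lab s (if k = l then false else true) (e m)) := fun l m =>
    sp_ext (F := tk lab s true ∘ₗ mp (g l)) 
      (G := mp (g l) ∘ₗ tk lab s (if k = l then false else true))
      (fun A hA L hL => tk_mp lab s (g l) true (if k = l then false else true) L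
        (fun x hx => h1 l x (hA.1 (hL x hx)))
        fun x hx hs => by
          rw [h2 l x (hA.1 (hL x hx)), hs, ← hk]
          split_ifs <;> simp) (h.mem m)
  refine ⟨fun m => tk lab s true (e m) + mp (g k) (kl lab s (e (m - Pi.single k 1))),
    fun m => add_mem ?_ ?_, fun m hm => ?_⟩
  · exact map_sp _ (fun A hA => ⟨_, hres A hA, tk_mem lab s true⟩) (h.mem m)
  · exact map_sp _ (fun A hA => ⟨_, hg k A hA, mp_mem _⟩)
      (map_sp _ (fun A hA => ⟨_, hres A hA, kl_mem lab s⟩) (h.mem _))
  · have hD : m - Pi.single k 1 ≤ D := by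
      refine le_trans (fun l => ?_) hm
      by_cases hl : l = k <;> simp [hl]
    rw [map_add, hT, bd_mp, bd_kl lab s true, h.rel m hm, h.rel _ hD]
    simp only [map_add, map_sum, map_smul, tk_nil, kl_nil, mp_sg, List.map_nil, smul_zero,
      add_zero, hP, hTg, Finset.sum_add_distrib, mp_mp, Bool.not_true]
    have e1 : ∑ l, mp (g l) (tk lab s (if k = l then false else true) (e (m - Pi.single l 1))) =
        ∑ l, mp (g l) (tk lab s true (e (m - Pi.single l 1))) +
          mp (g k) (tk lab s true (e (m - Pi.single k 1))) +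
          mp (g k) (tk lab s false (e (m - Pi.single k 1))) := by
      have e0 : ∑ l ∈ Finset.univ.erase k,
          mp (g l) (tk lab s (if k = l then false else true) (e (m - Pi.single l 1))) =
          ∑ l ∈ Finset.univ.erase k, mp (g l) (tk lab s true (e (m - Pi.single l 1))) :=
        Finset.sum_congr rfl fun l hl => by rw [if_neg (Finset.mem_erase.1 hl).1.symm]
      rw [← Finset.add_sum_erase _ _ (Finset.mem_univ k), e0,
        ← Finset.add_sum_erase Finset.univ _ (Finset.mem_univ k), if_pos rfl]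
      linear_combination (norm := abel1)
        -add_self (mp (g k) (tk lab s true (e (m - Pi.single k 1))))
    have e2 : ∀ l, g l ∘ g k = g k ∘ g l := fun l => funext fun x => hcomm l k x
    simp only [e1, e2, sub_right_comm m (Pi.single k 1)]
    linear_combination (norm := abel1)
      add_self (mp (g k) (tk lab s true (e (m - Pi.single k 1)))) +
      add_self (mp (g k) (tk lab s false (e (m - Pi.single k 1))))

lemma Fam.vanish {g : K → X → X} {O : Set X} (sig : S → K) (hO : ∀ k, ∀ x ∈ O, g k x ∈ O)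
    (hcomm : ∀ k l x, g k (g l x) = g l (g k x))
    (h1 : ∀ k, ∀ x ∈ O, (lab (g k x)).1 = (lab x).1)
    (h2 : ∀ k, ∀ x ∈ O,
      (lab (g k x)).2 = if sig (lab x).1 = k then !(lab x).2 else (lab x).2)
    (R : Finset S) {D : K → ℤ} {a : (K → ℤ) → ZMod 2} {e : (K → ℤ) → Ch X}
    (h : Fam g (Good lab O R) D a e) (m : K → ℤ) (hm : m ≤ D) :
    a (m - ∑ t ∈ R, Pi.single (sig t) 1) = 0 := by
  induction R using Finset.induction_on generalizing a e with
  | empty =>
    have hnil : ∀ A, Good lab O ∅ A → ∀ l : List X, (∀ x ∈ l, x ∈ A) → l = [] := by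
      intro A hA l hl
      cases l with
      | nil => rfl
      | cons x l => simpa using hA.2.1 x (hl x (by simp))
    have hb : bd (e m) = 0 := sp_ext (G := 0)
      (fun A hA l hl => by rw [hnil A hA l hl]; simp) (h.mem m)
    have hg : ∀ k n, mp (g k) (e n) = e n := fun k n => sp_ext (G := LinearMap.id)
      (fun A hA l hl => by rw [hnil A hA l hl]; simp) (h.mem n)
    have := h.rel m hm
    simp only [hb, hg, add_self, Finset.sum_const_zero, zero_add] at this
    simpa [sg] using congrArg (fun c : Ch X => c []) this.symm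
  | insert t R ht ih =>
    obtain ⟨e', he'⟩ := Fam.reduce lab t sig hO hcomm h1 h2 h
    have := ih he'
    rwa [Finset.sum_insert ht, add_comm, ← sub_sub]

end Pool.Agent.Lib.MP_f09365_an.Ash
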