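import Pool.Agent.Lib.MP_f09365_an.Ash.Label

namespace Pool.Agent.Lib.MP_f09365_an.Ash

open Finset

variable {K I S : Type*} [Fintype K] [DecidableEq K] [Fintype I] [DecidableEq I]

/-- The sign change of the coordinates of one type. -/
def flp {J : Type*} (τ : J → K) (k : K) (x : J → ℝ) : J → ℝ :=
  fun i => if τ i = k then -x i else x i

/-- Product of the unit spheres of the sum norm, coordinates outside a set being zero. -/
def Sph1 (τ : I → K) (J : Finset I) : Set (I → ℝ) :=
  {x | (∀ i, i ∉ J → x i = 0) ∧ ∀ k, ∑ i with τ i = k, |x i| = 1}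

def Small (τ : I → K) (J : Finset I) (δ : ℝ) (A : Set (I → ℝ)) : Prop :=
  A ⊆ Sph1 τ J ∧ ∀ x ∈ A, ∀ y ∈ A, dist x y ≤ δ

omit [Fintype K] [Fintype I] [DecidableEq I] in
lemma abs_flp (τ : I → K) (k : K) (x : I → ℝ) (i : I) : |flp τ k x i| = |x i| := by
  unfold flp
  split_ifs <;> simp

omit [Fintype K] [DecidableEq I] in
lemma flp_mem {τ : I → K} {J : Finset I} (k : K) {x : I → ℝ} (hx : x ∈ Sph1 τ J) :
    flp τ k x ∈ Sph1 τ J :=
  ⟨fun i hi => by simp [flp, hx.1 i hi], fun l => by simpa only [abs_flp] using hx.2 l⟩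

omit [Fintype K] [Fintype I] [DecidableEq I] in
lemma flp_comm (τ : I → K) (k l : K) (x : I → ℝ) :
    flp τ k (flp τ l x) = flp τ l (flp τ k x) := by
  ext i
  unfold flp
  split_ifs <;> rfl

omit [Fintype K] [DecidableEq I] in
lemma abs_le_one {τ : I → K} {J : Finset I} {x : I → ℝ} (hx : x ∈ Sph1 τ J) (i : I) :
    |x i| ≤ 1 := by
  rw [← hx.2 (τ i)]
  exact single_le_sum (f := fun i => |x i|) (fun _ _ => abs_nonneg _) (by simp)

lemma source (τ : I → K) (b : K → I) (hb : ∀ k, τ (b k) = k) (J : Finset I)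
    (hJ : ∀ k, b k ∉ J) (δ : ℝ) (hδ : 0 < δ) :
    ∃ e, Fam (flp τ) (Small τ (J ∪ univ.image b) δ) (∑ i ∈ J, Pi.single (τ i) 1)
      (fun m => if m = 0 then 1 else 0) e := by
  induction J using Finset.induction_on generalizing δ with
  | empty =>
    let x : I → ℝ := fun i => if b (τ i) = i then 1 else 0
    have hx : x ∈ Sph1 τ (∅ ∪ univ.image b) := by
      refine ⟨fun i hi => if_neg fun h => hi (by simpa using ⟨_, h⟩), fun k => ?_⟩
      rw [sum_eq_single (b k)]
      · simp [x, hb]
      · intro i hi hne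
        have : τ i = k := by simpa using hi
        simp [x, this, hne.symm]
      · simp [hb]
    refine ⟨fun m => if m = 0 then sg [x] else 0, fun m => ?_, fun m hm => ?_⟩
    · split_ifs
      · refine on_le (A := {x}) ⟨by simpa using hx, by simp [hδ.le]⟩ (sg_mem (by simp))
      · simp
    · have : ∀ k, m - Pi.single k 1 ≠ 0 := by
        intro k h
        have h1 := congrFun h k
        have h2 := hm k
        simp at h1 h2
        omega
      simp only [this, if_false, map_zero, add_zero, sum_const_zero, zero_add]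
      split_ifs
      · rw [← cons_sg, bd_cons]
        simp
      · simp
  | insert i J hi ih =>
    obtain ⟨e, he⟩ := ih (fun k hk => hJ k (by simp [hk])) (δ / 2) (by positivity)
    obtain ⟨M, hM⟩ := exists_nat_ge (4 / δ)
    have hM0 : (0 : ℝ) < M := lt_of_lt_of_le (by positivity) hM
    have hi' : i ∉ J ∪ univ.image b := by
      simp only [mem_union, mem_image, mem_univ, true_and, not_or, not_exists]
      exact ⟨hi, fun k hk => hJ k (by simp [hk])⟩
    let H : ℕ → (I → ℝ) → I → ℝ := fun t x j =>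
      if τ j = τ i then (1 - t / M) * x j + (if j = i then (t / M : ℝ) else 0) else x j
    have hsub : Sph1 τ (J ∪ univ.image b) ⊆ Sph1 τ (insert i J ∪ univ.image b) :=
      fun x hx => ⟨fun j hj => hx.1 j fun h => hj (by
        rw [insert_union]; exact mem_insert_of_mem h), hx.2⟩
    have hmem : ∀ t ≤ M, ∀ x ∈ Sph1 τ (J ∪ univ.image b),
        H t x ∈ Sph1 τ (insert i J ∪ univ.image b) := by
      intro t ht x hx
      have h0 : (0 : ℝ) ≤ t / M := by positivity
      have h1 : (t : ℝ) / M ≤ 1 := (div_le_one hM0).2 (by exact_mod_cast ht)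
      refine ⟨fun j hj => ?_, fun k => ?_⟩
      · rw [insert_union, mem_insert, not_or] at hj
        simp [H, hj.1, hx.1 j hj.2]
      · by_cases hk : k = τ i
        · have : ∀ j ∈ univ.filter (τ · = k),
              |H t x j| = (1 - t / M) * |x j| + (if j = i then (t / M : ℝ) else 0) := by
            intro j hj
            have hj' : τ j = τ i := by simpa [hk] using hj
            by_cases hji : j = i
            · simp [H, hji, hx.1 i hi', abs_of_nonneg h0]
            · simp [H, hj', hji, abs_mul, abs_of_nonneg (sub_nonneg.2 h1)]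
          rw [sum_congr rfl this, sum_add_distrib, ← mul_sum, hx.2 k]
          simp [hk]
        · rw [← hx.2 k]
          refine sum_congr rfl fun j hj => ?_
          have hj' : τ j = k := by simpa using hj
          simp [H, hj', hk]
    have hd : ∀ t ≤ M, ∀ t' ≤ M, |(t : ℝ) - t'| ≤ 1 → ∀ x y, (∀ j, |y j| ≤ 1) →
        dist x y ≤ δ / 2 → dist (H t x) (H t' y) ≤ δ := by
      intro t ht t' _ htt x y hy hxy
      have h0 : (0 : ℝ) ≤ t / M := by positivity
      have h1 : (t : ℝ) / M ≤ 1 := (div_le_one hM0).2 (by exact_mod_cast ht)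
      have h2 : |(t : ℝ) / M - t' / M| ≤ δ / 4 := by
        rw [← sub_div, abs_div, abs_of_pos hM0, div_le_iff₀ hM0]
        rw [div_le_iff₀ hδ] at hM
        linarith
      rw [dist_pi_le_iff hδ.le]
      intro j
      have h3 : |x j - y j| ≤ δ / 2 := (dist_le_pi_dist x y j).trans hxy
      have h4 : |(1 - t / M) * (x j - y j)| ≤ δ / 2 := by
        rw [abs_mul, abs_of_nonneg (sub_nonneg.2 h1)]
        nlinarith [abs_nonneg (x j - y j)]
      have h5 : |((t : ℝ) / M - t' / M) * y j| ≤ δ / 4 := by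
        rw [abs_mul]
        nlinarith [abs_nonneg ((t : ℝ) / M - t' / M), hy j, abs_nonneg (y j)]
      rw [Real.dist_eq]
      simp only [H]
      rw [abs_le] at h2 h3 h4 h5 ⊢
      split_ifs <;> constructor <;> linarith [h2.1, h2.2, h3.1, h3.2, h4.1, h4.2, h5.1, h5.2]
    rw [sum_insert hi, add_comm]
    refine he.step (τ i) (fun x => ?_) (fun l x => flp_comm τ _ _ x) (fun m hm => ?_) M H ?_
      (fun x => ?_) (fun t l x hl => ?_) (fun A hA => ⟨hA.1.trans hsub, fun x hx y hy =>
        (hA.2 x hx y hy).trans (by linarith)⟩) (fun A hA => ⟨?_, ?_⟩) (fun t ht A hA => ⟨?_, ?_⟩)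
    · ext j
      unfold flp
      split_ifs <;> simp
    · refine if_neg fun h => ?_
      have : (0 : ℤ) ≤ (∑ j ∈ J, Pi.single (τ j) 1 : K → ℤ) (τ i) := by
        rw [Finset.sum_apply]
        exact sum_nonneg fun j _ => by by_cases h : τ i = τ j <;> simp [h]
      rw [h] at hm
      exact absurd hm (not_lt.2 this)
    · ext x j
      simp [H]
    · ext j
      by_cases h : τ j = τ i <;> simp [H, flp, h, hM0.ne']
    · ext j
      by_cases h : τ j = τ i
      · simp [H, flp, h, hl.symm]
      · simp [H, flp, h]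
    · rintro _ ⟨x, hx, rfl⟩
      exact flp_mem _ (hA.1 hx)
    · rintro _ ⟨x, hx, rfl⟩ _ ⟨y, hy, rfl⟩
      rw [dist_pi_le_iff (by positivity)]
      intro j
      refine le_trans ?_ ((dist_le_pi_dist x y j).trans (hA.2 x hx y hy))
      unfold flp
      split_ifs <;> simp
    · rintro _ (⟨x, hx, rfl⟩ | ⟨x, hx, rfl⟩)
      · exact hmem t ht.le x (hA.1 hx)
      · exact hmem (t + 1) ht x (hA.1 hx)
    · rintro _ (⟨x, hx, rfl⟩ | ⟨x, hx, rfl⟩) _ (⟨y, hy, rfl⟩ | ⟨y, hy, rfl⟩) <;>
      exact hd _ (by omega) _ (by omega) (by simp) x y (abs_le_one (hA.1 hy)) (hA.2 x hx y hy)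

/-- Product Borsuk-Ulam theorem, spheres of the sum norm. -/
theorem pbu_one [Fintype S] (τ : I → K) (σ : S → K)
    (hcard : ∀ k, #{s | σ s = k} < #{i | τ i = k}) (f : (I → ℝ) → S → ℝ)
    (hf : ContinuousOn f (Sph1 τ univ))
    (hodd : ∀ k, ∀ x ∈ Sph1 τ univ, f (flp τ k x) = flp σ k (f x)) :
    ∃ x ∈ Sph1 τ univ, f x = 0 := by
  classical
  by_contra hne
  push Not at hne
  have hb : ∀ k, ∃ i, τ i = k := fun k => by
    obtain ⟨i, hi⟩ := card_pos.1 ((Nat.zero_le _).trans_lt (hcard k))
    exact ⟨i, by simpa using hi⟩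
  choose b hb using hb
  have hcpt : IsCompact (Sph1 τ univ) := by
    refine Metric.isCompact_of_isClosed_isBounded ?_ ?_
    · have : Sph1 τ univ = ⋂ k, {x | ∑ i with τ i = k, |x i| = 1} := by
        ext x
        simp [Sph1]
      rw [this]
      exact isClosed_iInter fun k => isClosed_eq (by fun_prop) continuous_const
    · refine (Metric.isBounded_closedBall (x := 0) (r := 1)).subset fun x hx => ?_
      rw [mem_closedBall_zero_iff, pi_norm_le_iff_of_nonneg zero_le_one]
      exact fun i => abs_le_one hx i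
  have hx0 : (fun i => if b (τ i) = i then 1 else 0) ∈ Sph1 τ univ := by
    refine ⟨by simp, fun k => ?_⟩
    rw [sum_eq_single (b k)]
    · simp [hb]
    · intro i hi hne
      have : τ i = k := by simpa using hi
      simp [this, hne.symm]
    · simp [hb]
  obtain ⟨z, hz, hmin⟩ := hcpt.exists_isMinOn ⟨_, hx0⟩ hf.norm
  have hr : 0 < ‖f z‖ := norm_pos_iff.2 (hne z hz)
  have : Nonempty S := by
    by_contra h
    rw [not_nonempty_iff] at h
    exact hne z hz (Subsingleton.elim _ _)
  have hex : ∀ x ∈ Sph1 τ univ, ∃ s, ‖f z‖ ≤ |f x s| := fun x hx => by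
    by_contra h
    push Not at h
    exact absurd (hmin hx) (not_le.2 ((pi_norm_lt_iff hr).2 h))
  obtain ⟨δ, hδ, hu⟩ := Metric.uniformContinuousOn_iff.1
    (hcpt.uniformContinuousOn_of_continuous hf) _ hr
  let pick : (S → ℝ) → S := fun φ => Classical.epsilon fun s => ‖f z‖ ≤ φ s
  let lab : (I → ℝ) → S × Bool := fun x =>
    (pick fun s => |f x s|, decide (0 < f x (pick fun s => |f x s|)))
  have hp : ∀ x ∈ Sph1 τ univ, ‖f z‖ ≤ |f x (lab x).1| := fun x hx =>
    Classical.epsilon_spec (hex x hx)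
  have h1 : ∀ k, ∀ x ∈ Sph1 τ univ, (lab (flp τ k x)).1 = (lab x).1 := fun k x hx => by
    simp only [lab, hodd k x hx, abs_flp]
  have h2' : ∀ x, (lab x).2 = decide (0 < f x (lab x).1) := fun x => rfl
  have h2 : ∀ k, ∀ x ∈ Sph1 τ univ,
      (lab (flp τ k x)).2 = if σ (lab x).1 = k then !(lab x).2 else (lab x).2 := fun k x hx => by
    have h0 : f x (lab x).1 ≠ 0 := abs_pos.1 (hr.trans_le (hp x hx))
    rw [h2', h2', h1 k x hx, hodd k x hx, flp]
    split_ifs
    · rcases lt_or_gt_of_ne h0 with h | h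
      · simp [h, h.le]
      · simp [h, h.le]
    · rfl
  obtain ⟨e, he⟩ := source τ b hb (univ \ univ.image b) (by simp) (δ / 2) (by positivity)
  have he' : Fam (flp τ) (Good lab (Sph1 τ univ) univ) _ _ e :=
    ⟨fun m => sp_mono (fun A hA => ?_) (he.mem m), he.rel⟩
  · have := Fam.vanish lab σ (fun k x hx => flp_mem k hx) (flp_comm τ) h1 h2 univ he'
      (∑ s, Pi.single (σ s) 1) fun k => ?_
    · simp at this
    · have e1 : (∑ s, Pi.single (σ s) 1 : K → ℤ) k = #{s | σ s = k} := by
        simp [Finset.sum_apply, Pi.single_apply, eq_comm]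
      have e2 : (∑ i ∈ univ \ univ.image b, Pi.single (τ i) 1 : K → ℤ) k =
          #((univ.filter (τ · = k)).erase (b k)) := by
        simp only [Finset.sum_apply, Pi.single_apply, sum_boole, Nat.cast_inj]
        congr 1
        ext i
        simp only [mem_filter, mem_sdiff, mem_univ, mem_image, true_and, not_exists, mem_erase]
        constructor
        · exact fun h => ⟨fun h' => h.1 k h'.symm, h.2.symm⟩
        · exact fun h => ⟨fun l hl => h.1 (by rw [← h.2, ← hl, hb]), h.2.symm⟩
      rw [e1, e2, card_erase_of_mem (by simp [hb])]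
      exact Nat.cast_le.2 (Nat.le_sub_one_of_lt (hcard k))
  · have hA1 : A ⊆ Sph1 τ univ := fun x hx => ⟨by simp, (hA.1 hx).2⟩
    refine ⟨hA1, by simp, fun x hx y hy hxy => ?_⟩
    have h3 := hu x (hA1 hx) y (hA1 hy) ((hA.2 x hx y hy).trans_lt (by linarith))
    have h4 := (dist_le_pi_dist (f x) (f y) (lab x).1).trans_lt h3
    have h5 := hp x (hA1 hx)
    have h6 := hp y (hA1 hy)
    rw [h2', h2', ← hxy] at *
    rw [Real.dist_eq, abs_lt] at h4
    rw [decide_eq_decide]
    rcases le_abs'.1 h5 with h5 | h5 <;> rcases le_abs'.1 h6 with h6 | h6 <;>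
      constructor <;> intro <;> linarith [h4.1, h4.2]

/-- Product of the Euclidean unit spheres. -/
def Sph (τ : I → K) : Set (I → ℝ) := {x | ∀ k, ∑ i with τ i = k, x i ^ 2 = 1}

/-- Product Borsuk-Ulam theorem. -/
theorem pbu [Fintype S] (τ : I → K) (σ : S → K)
    (hcard : ∀ k, #{s | σ s = k} < #{i | τ i = k}) (f : (I → ℝ) → S → ℝ)
    (hf : ContinuousOn f (Sph τ))
    (hodd : ∀ k, ∀ x ∈ Sph τ, f (flp τ k x) = flp σ k (f x)) :
    ∃ x ∈ Sph τ, f x = 0 := by
  let n : (I → ℝ) → K → ℝ := fun x k => ∑ i with τ i = k, x i ^ 2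
  have hn : ∀ x ∈ Sph1 τ univ, ∀ k, 0 < n x k := by
    intro x hx k
    by_contra h
    have h0 : n x k = 0 := le_antisymm (not_lt.1 h) (sum_nonneg fun _ _ => sq_nonneg _)
    have h1 := hx.2 k
    rw [sum_eq_zero fun i hi => by
      simpa using (sum_eq_zero_iff_of_nonneg fun _ _ => sq_nonneg _).1 h0 i hi] at h1
    exact zero_ne_one h1
  let N : (I → ℝ) → I → ℝ := fun x i => x i / √(n x (τ i))
  have hN : Set.MapsTo N (Sph1 τ univ) (Sph τ) := by
    intro x hx k
    have : ∀ i ∈ univ.filter (τ · = k), N x i ^ 2 = x i ^ 2 / n x k := by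
      intro i hi
      have hi' : τ i = k := by simpa using hi
      simp only [N, hi', div_pow, Real.sq_sqrt (hn x hx k).le]
    rw [sum_congr rfl this, ← sum_div]
    exact div_self (hn x hx k).ne'
  have hc : ContinuousOn N (Sph1 τ univ) := continuousOn_pi.2 fun i =>
    (continuous_apply i).continuousOn.div (Continuous.continuousOn (by fun_prop))
      fun x hx => (Real.sqrt_pos.2 (hn x hx _)).ne'
  have hfl : ∀ k x, N (flp τ k x) = flp τ k (N x) := by
    intro k x
    have : n (flp τ k x) = n x := by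
      ext l
      exact sum_congr rfl fun i _ => by rw [← sq_abs, abs_flp, sq_abs]
    ext i
    simp only [N, this, flp]
    split_ifs
    · exact neg_div _ _
    · rfl
  obtain ⟨x, hx, h0⟩ := pbu_one τ σ hcard (f ∘ N) (hf.comp hc hN)
    fun k x hx => by simp only [Function.comp, hfl, hodd k _ (hN hx)]
  exact ⟨N x, hN hx, h0⟩

end Pool.Agent.Lib.MP_f09365_an.Ash
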